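import Pool.Agent.helper35.FO.Spec

/-!
# Row fo:WLK (MP_a2a22c_al): a finitely supported cycle gives a walk without backtracking
-/

set_option autoImplicit false

namespace Pool.Agent.FO

open Matrix Pool.Agent.H48SL Pool.Agent.UG Pool.Agent.LV

theorem WLK_nb {E V : Type} (S : E → V) (c : E →₀ ℚ) (hc : c.mapDomain S = 0) (e : E) (he : e ∈ c.support) :
    ∃ x ∈ c.support, S x = S e ∧ x ≠ e := by
  classical
  by_contra hcon
  push Not at hcon
  have h1 : (c.mapDomain S) (S e) = 0 := by rw [hc]; rfl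
  rw [Finsupp.mapDomain, Finsupp.sum_apply, Finsupp.sum] at h1
  rw [Finset.sum_eq_single e] at h1
  · rw [Finsupp.single_eq_same] at h1
    exact (Finsupp.mem_support_iff.1 he) h1
  · intro b hb hbe
    rw [Finsupp.single_apply, if_neg]
    intro h2
    exact hbe (hcon b hb h2)
  · intro h2
    exact absurd he h2

theorem WLK : WLK_stmt := by
  classical
  intro E V W S T c hc hS hT
  have hσ : ∀ e : {e : E // e ∈ c.support}, ∃ x : {e : E // e ∈ c.support}, S x = S e ∧ (x : E) ≠ e := by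
    intro e
    obtain ⟨x, hx, h1, h2⟩ := WLK_nb S c hS e e.2
    exact ⟨⟨x, hx⟩, h1, h2⟩
  have hτ : ∀ e : {e : E // e ∈ c.support}, ∃ x : {e : E // e ∈ c.support}, T x = T e ∧ (x : E) ≠ e := by
    intro e
    obtain ⟨x, hx, h1, h2⟩ := WLK_nb T c hT e e.2
    exact ⟨⟨x, hx⟩, h1, h2⟩
  choose σ hσ1 hσ2 using hσ
  choose τ hτ1 hτ2 using hτ
  obtain ⟨e0, he0⟩ := Finsupp.support_nonempty_iff.2 hc
  let w : ℕ → {e : E // e ∈ c.support} := fun n => Nat.rec ⟨e0, he0⟩ (fun n x => if n % 2 = 0 then σ x else τ x) n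
  have hw : ∀ n, w (n + 1) = if n % 2 = 0 then σ (w n) else τ (w n) := fun n => rfl
  refine ⟨fun n => (w n).1, ?_, ?_, ?_⟩
  · refine c.support.finite_toSet.subset ?_
    rintro x ⟨n, rfl⟩
    exact (w n).2
  · intro i
    have h1 : w (2 * i + 1) = σ (w (2 * i)) := by rw [hw, if_pos (by omega)]
    show S (w (2 * i + 1)).1 = S (w (2 * i)).1 ∧ (w (2 * i + 1)).1 ≠ (w (2 * i)).1
    rw [h1]
    exact ⟨hσ1 _, hσ2 _⟩
  · intro i
    have h1 : w (2 * i + 2) = τ (w (2 * i + 1)) := by rw [hw, if_neg (by omega)]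
    show T (w (2 * i + 2)).1 = T (w (2 * i + 1)).1 ∧ (w (2 * i + 2)).1 ≠ (w (2 * i + 1)).1
    rw [h1]
    exact ⟨hτ1 _, hτ2 _⟩

end Pool.Agent.FO
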